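import Pool.Agent.H7.HD.All6
import Pool.Agent.H7.HD.Targets11
import Pool.Agent.H14.HD.QE
import Pool.Agent.H3.HD.DM

/-!
# MP_e37c09_lc, module HSD: definability of `hs` and of `RegHOD`
-/

set_option autoImplicit false

open Ordinal Cardinal Order Set
open scoped ZFSet

universe u

namespace Pool.Agent.H86.HDA.HSD

open _root_.HD
open Pool.Agent.H14.HD.QE (DF)

private theorem do_onto : DO.{u} fun w => OntoHOD (w 0) (w 1) := by
  refine ⟨fun v => ∃ f, HOD f ∧ ZFSet.IsFunc (v 0) (v 1) f ∧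
    ∀ b ∈ v 1, ∃ a ∈ v 0, ZFSet.pair a b ∈ f, ?_, ?_⟩
  · exact DZ.ex (DZ.and (Pool.Agent.H3.HD.DM.dz_hod 0) (DZ.and (loc_func 1 2 0).dz
      (DZ.allMem 2 (DZ.exMem 2 (loc_pmem 0 1 2).dz))))
  · intro w
    unfold OntoHOD
    refine exists_congr fun f => and_congr_right fun _ => and_congr_right fun _ => ?_
    constructor
    · intro h b hb
      obtain ⟨b, hb', rfl⟩ := mem_toZFSet_iff.1 hb
      obtain ⟨a, ha, hab⟩ := h b hb'
      exact ⟨_, toZFSet_mem_toZFSet_iff.2 ha, hab⟩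
    · intro h b hb
      obtain ⟨a, ha, hab⟩ := h _ (toZFSet_mem_toZFSet_iff.2 hb)
      obtain ⟨a, ha', rfl⟩ := mem_toZFSet_iff.1 ha
      exact ⟨a, ha', hab⟩

/-- definability of `hs` and of `RegHOD` -/
theorem hsd : T_HSD.{u} := by
  classical
  have h1 : DF.{u} fun w => hs (w 0) := by
    refine DF.sinf (A := fun β w => w 0 < β ∧ ¬ OntoHOD (w 0) β) ?_
    exact DO.and (DO.lt 1 0) (DO.s2 (X := fun a b => OntoHOD a b) do_onto 1 0).not
  refine ⟨DO.s2 (X := fun b a => b = hs a) h1 1 0, ?_, ?_⟩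
  · obtain ⟨p, s, r, hps⟩ := All.ps.{u}
    have h2 : DO fun w : ℕ → Ordinal.{u} => (0 < w 0 ∧ ∀ y < w 0, ∃ z < w 0, y < z) ∧
        ¬ w 0 ∈ {a : Ordinal.{u} | SingHOD a} := by
      refine DO.and (DO.and (DO.gtc 0 0) ?_) hps.dg.not
      refine DO.allLt (R := fun y w => ∃ z < w 0, y < z) 0 ?_
      exact DO.exLt (R := fun z w => w 0 < z) 1 (DO.lt 1 0)
    refine h2.congr fun w => and_congr ?_ Iff.rfl
    constructor
    · intro hl
      exact ⟨hl.bot_lt, fun y hy => ⟨succ y, hl.succ_lt hy, lt_succ y⟩⟩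
    · rintro ⟨g0, g1⟩
      refine ⟨fun hmin => ?_, ?_⟩
      · have := hmin.eq_bot
        rw [this] at g0
        exact absurd g0 (lt_irrefl _)
      · intro y hy
        obtain ⟨z, hz, hyz⟩ := g1 y hy.1
        exact hy.2 hyz hz
  · intro κ ζ h0 h
    obtain ⟨R, hR, hR1, hR2, hR3⟩ :=
      Pool.Agent.H54.CL.onto_fun (Pool.Agent.H54.CL.onto_of_lt_hs h0 h)
    choose! f hf1 hf2 using hR1
    refine ⟨fun a => if a < κ then f a else 0, ?_, ?_, ?_⟩
    · have h2 : DO fun w : ℕ → Ordinal.{u} => (w 0 < κ ∧ R (w 0) (w 1)) ∨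
          (¬ w 0 < κ ∧ w 1 = 0) :=
        (DO.and (DO.ltc 0 κ) hR).or ((DO.ltc 0 κ).not.and (DO.eqc 1 0))
      refine h2.congr fun w => ?_
      by_cases hw : w 0 < κ
      · simp only [hw, not_true_eq_false, false_and, or_false, true_and, if_true]
        constructor
        · intro hr
          rw [hr]
          exact hf2 _ hw
        · intro hr
          exact hR2 _ hw _ _ hr (hf2 _ hw)
      · simp [hw]
    · intro j hj
      simp only [hj, if_true]
      exact hf1 j hj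
    · intro z hz
      obtain ⟨j, hj, hjz⟩ := hR3 z hz
      refine ⟨j, hj, ?_⟩
      simp only [hj, if_true]
      exact hR2 j hj _ _ hjz (hf2 j hj)

end Pool.Agent.H86.HDA.HSD
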