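import Pool.Agent.H7.HD.Targets11
import Pool.Agent.H7.HD.All
import Pool.Agent.H23.HD.P2
import Pool.Agent.H7.HD.UB
import Pool.Agent.H3.HD.Iter
import Pool.Agent.H2.HD.UV

/-!
# MP_e37c09_lc, module SH2: splitting, general form (an adaptation of `Pool/Agent/H77/HD9/SH.lean`)
-/

set_option autoImplicit false

open Ordinal Cardinal Order Set
open scoped ZFSet

universe u

namespace Pool.Agent.H86.HDA.SH2

open _root_.HD

private theorem clb_univ {K : Cardinal.{u}} (hK0 : ℵ₀ < K) :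
    Clb K.ord (univ : Set Ordinal.{u}) := by
  refine ⟨fun a ha => ⟨a + 1, ?_, _root_.lt_add_one a, mem_univ _⟩, fun x _ _ _ => mem_univ _⟩
  exact (Cardinal.isSuccLimit_ord hK0.le).add_one_lt ha

/-- `z < κ`, and `A p z` -/
private def Ap (κ : Ordinal.{u}) (A : Ordinal.{u} → Ordinal.{u} → Prop) (z p : Ordinal.{u}) :
    Prop := z < κ ∧ A p z

private theorem ap_do {κ : Ordinal.{u}} {A : Ordinal.{u} → Ordinal.{u} → Prop} (hA : DR A) :
    DO fun w => Ap κ A (w 0) (w 1) :=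
  DO.and (DO.ltc 0 κ) (DO.s2 (X := fun a b => A a b) hA 1 0)

/-- `p` is a limit ordinal of cofinality less than `δ` -/
private def Lc (δ p : Ordinal.{u}) : Prop :=
  (0 < p ∧ ∀ y < p, ∃ z < p, y < z) ∧ ∃ m < δ, Cf m p

private theorem lc_do (δ : Ordinal.{u}) : DO fun w => Lc δ (w 0) := by
  refine DO.and (DO.and (DO.gtc 0 0) ?_) ?_
  · refine DO.allLt (R := fun y w => ∃ z < w 0, y < z) 0 ?_
    exact DO.exLt (R := fun z w => w 0 < z) 1 (DO.lt 1 0)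
  · exact DO.exLtc (R := fun m w => Cf m (w 0)) δ (do_Cf All.la 0 1)

/-- `p` is a limit ordinal of cofinality less than `δ`, and the set of the indices `z` is cofinal
in `b` -/
private def Good (κ δ : Ordinal.{u}) (A : Ordinal.{u} → Ordinal.{u} → Prop) (b p : Ordinal.{u}) :
    Prop :=
  Lc δ p ∧ ∀ y < b, ∃ z < b, y < z ∧ Ap κ A z p

private theorem good_do {κ δ : Ordinal.{u}} {A : Ordinal.{u} → Ordinal.{u} → Prop} (hA : DR A) :
    DR (Good κ δ A) := by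
  refine DO.and (DO.s1 (X := fun a => Lc δ a) (lc_do δ) 1) ?_
  refine DO.allLt (R := fun y w => ∃ z < w 0, y < z ∧ Ap κ A z (w 1)) 0 ?_
  refine DO.exLt (R := fun z w => w 0 < z ∧ Ap κ A z (w 2)) 1 ?_
  exact DO.and (DO.lt 1 0) ((ap_do hA).s2 0 3)

/-- the `i`-th index below `b` for the least good `p` -/
private def Tr (κ δ : Ordinal.{u}) (A : Ordinal.{u} → Ordinal.{u} → Prop) (i b a : Ordinal.{u}) :
    Prop :=
  ∃ p, Pool.Agent.H17.HD.XK.Lst (Good κ δ A) b p ∧ nth {z | z < b ∧ Ap κ A z p} i a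

private theorem tr_do {κ δ : Ordinal.{u}} {A : Ordinal.{u} → Ordinal.{u} → Prop} (hA : DR A)
    (i : Ordinal.{u}) : DR (Tr κ δ A i) := by
  refine DO.ex (R := fun p w => Pool.Agent.H17.HD.XK.Lst (Good κ δ A) (w 0) p ∧
    nth {z | z < w 0 ∧ Ap κ A z p} i (w 1)) ?_
  refine DO.and ((Pool.Agent.H17.HD.XK.Lst.do (good_do hA)).s2 1 0) ?_
  refine DO.sub i (R := fun i w => nth {z | z < w 1 ∧ Ap κ A z (w 0)} i (w 2)) ?_
  have h := All.db (fun z w => z < w 0 ∧ Ap κ A z (w 1))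
    (DO.and (DO.lt 0 1) ((ap_do hA).s2 0 2))
  exact DO.s4 (X := fun p q r t => nth {z | z < r ∧ Ap κ A z t} p q) h 0 3 2 1

private theorem tr_uniq {κ δ : Ordinal.{u}} {A : Ordinal.{u} → Ordinal.{u} → Prop}
    {i b a a' : Ordinal.{u}} (h : Tr κ δ A i b a) (h' : Tr κ δ A i b a') : a = a' := by
  obtain ⟨p, h1, h2⟩ := h
  obtain ⟨p', h1', h2'⟩ := h'
  have e := h1.uniq h1'
  subst e
  exact Pool.Agent.H17.HD.XK.nth_uniq All.vh h2 h2'

/-- splitting, general form -/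
theorem sh2 : T_SH2.{u} := by
  classical
  intro D K κ W A hDreg hD0 hK hDK hκ hW hA hfewA hAW τ hτ0 hτK
  have hK0 : ℵ₀ < K := hD0.trans hDK
  have hKc : K.ord.cof = K := hK.cof_ord
  have hKc0 : ℵ₀ < K.ord.cof := by rw [hKc]; exact hK0
  have hlimof : ∀ ν : Ordinal.{u}, (0 < ν ∧ ∀ y < ν, ∃ z < ν, y < z) → IsSuccLimit ν := by
    rintro ν ⟨h0, h1⟩
    refine ⟨fun hmin => ?_, ?_⟩
    · have := hmin.eq_bot
      rw [this] at h0
      exact absurd h0 (lt_irrefl _)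
    · intro y hy
      obtain ⟨z, hz, hyz⟩ := h1 y hy.1
      exact hy.2 hyz hz
  -- there is a good `p`
  have hgood : ∀ b < K.ord, b.cof = ℵ₀ → ∃ p, Good K.ord D.ord A b p := by
    intro b hb hbc
    have hlim : IsSuccLimit b := by
      rw [← Ordinal.one_lt_cof_iff, hbc]
      exact Cardinal.one_lt_aleph0
    obtain ⟨g, hg1, -, hg3⟩ := Pool.Agent.H2.HD.UV.exists_seq hlim
    have h1 := hW.cmp b.cof.ord (by rw [hbc]; exact Cardinal.ord_lt_ord.2 hD0)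
      (fun i => {ν | A ν (g i)})
      (fun i hi => hAW (g i) ((hg1 i hi).trans hb))
    obtain ⟨ν, ⟨hν1, hν2⟩, hν3⟩ :=
      W.nonempty_of_mem (Filter.inter_mem (Filter.inter_mem h1 hW.lim) hW.cf)
    have hν2' : IsSuccLimit ν := hν2
    refine ⟨ν, ⟨⟨hν2'.bot_lt, fun y hy => ⟨y + 1, hν2'.add_one_lt hy,
        _root_.lt_add_one y⟩⟩, ν.cof.ord, Cardinal.ord_lt_ord.2 hν3, rfl⟩, ?_⟩
    intro y hy
    obtain ⟨i, hi, hyi⟩ := hg3 y hy
    exact ⟨g i, hg1 i hi, hyi, (hg1 i hi).trans hb, hν1 i hi⟩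
  -- the set of the indices is small
  have hfew : ∀ b p, Good K.ord D.ord A b p → Few D.ord {z | z < b ∧ Ap K.ord A z p} := by
    intro b p hgd
    obtain ⟨⟨hlm, m, hm, hc⟩, -⟩ := hgd
    have hlim : IsSuccLimit p := hlimof p hlm
    have hcf : p.cof < D := by
      have h1 : p.cof.ord = m := hc
      rw [← Cardinal.ord_lt_ord, h1]
      exact hm
    obtain ⟨t', ht', e, he⟩ := hfewA p hlim hcf
    exact ⟨t', ht', e, fun z hz => he z hz.2.2⟩
  -- a positive set for some index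
  have hcl : ∀ l < K.ord, ∃ i < D.ord, Pos (ℵ₀ : Cardinal.{u}).ord K.ord
      {b | ∃ a, l ≤ a ∧ a < b ∧ Tr K.ord D.ord A i b a} := by
    intro l hl
    by_contra hcon
    push Not at hcon
    have hn := All.va (ℵ₀ : Cardinal.{u}).ord K.ord hKc0 D.ord
      (by rw [Cardinal.card_ord, hKc]; exact hDK)
      (fun i => {b | ∃ a, l ≤ a ∧ a < b ∧ Tr K.ord D.ord A i b a}) hcon
    have hl1 : l + 1 < K.ord := (Cardinal.isSuccLimit_ord hK0.le).add_one_lt hl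
    have h1 : Pos (ℵ₀ : Cardinal.{u}).ord K.ord (univ \ Iio (l + 1)) :=
      pos_diff All.va hKc0 (All.vc ℵ₀ K.ord Cardinal.isRegular_aleph0 hKc0)
        (All.vb _ K.ord (l + 1) (Cardinal.isSuccLimit_ord hK0.le) hl1)
    refine hn (h1.mono fun b hb hb1 hbc => ?_)
    have hlb : l < b := by
      have h2 : ¬ b < l + 1 := hb1.2
      exact (_root_.lt_add_one l).trans_le (not_lt.1 h2)
    have hbc' : b.cof = ℵ₀ := Cardinal.ord_injective hbc
    obtain ⟨p, hp⟩ := Pool.Agent.H17.HD.XK.Lst.exist (hgood b hb hbc')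
    obtain ⟨z, hz, hlz, hA⟩ := hp.1.2 l hlb
    obtain ⟨i, -, hi⟩ := (All.vh {z | z < b ∧ Ap K.ord A z p}).1 z ⟨hz, hA⟩
    obtain ⟨t, ht, -, hti⟩ := Pool.Agent.H17.HD.XK.idx All.vh (hfew b p hp.1)
    exact ⟨i, (hti i z hi).trans ht, z, hlz.le, hz, p, hp, hi⟩
  choose! f hf1 hf2 using hcl
  -- one index
  have hone : ∃ i < D.ord, ∀ l < K.ord, ∃ l', l ≤ l' ∧ l' < K.ord ∧ f l' = i := by
    by_contra hcon
    push Not at hcon
    choose! g hg1 hg2 using hcon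
    obtain ⟨t, ht, hgt⟩ := Pool.Agent.H3.HD.exists_bound (ρ := K.ord) (τ := D.ord)
      (by rw [Cardinal.card_ord, hKc]; exact hDK) g hg1
    exact hg2 (f t) (hf1 t ht) t (hgt _ (hf1 t ht)) ht rfl
  obtain ⟨i, hi, hi2⟩ := hone
  refine Pool.Agent.H7.HD.UB.ub Pool.Agent.H23.HD.P2.X K (Tr K.ord D.ord A i) hK hK0 (tr_do hA _) (fun b a a' h h' => tr_uniq h h') ?_
    τ hτ0 hτK
  intro l hl
  have hX : Pos (ℵ₀ : Cardinal.{u}).ord K.ord
      {b | ∃ a, l ≤ a ∧ a < b ∧ Tr K.ord D.ord A i b a} := by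
    obtain ⟨l', hl', hl'K, rfl⟩ := hi2 l hl
    refine (hf2 l' hl'K).mono fun b _ hb _ => ?_
    obtain ⟨a, ha, h⟩ := hb
    exact ⟨a, hl'.trans ha, h⟩
  have hex : ∀ b ∈ {b | ∃ a, l ≤ a ∧ a < b ∧ Tr K.ord D.ord A i b a},
      ∃ a, l ≤ a ∧ a < b ∧ Tr K.ord D.ord A i b a := fun b hb => hb
  choose! h' hh1 hh2 hh3 using hex
  obtain ⟨a, ha, hpa⟩ := All.vd _ K hK hK0 _ h' hX (fun b hb _ _ => hh2 b hb)
  refine ⟨a, ?_, ha, hpa.mono fun b _ hb _ => ?_⟩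
  · obtain ⟨b, -, -, hb, -⟩ := hpa _ (clb_univ hK0)
    rw [← hb.2]
    exact hh1 b hb.1
  · show Tr K.ord D.ord A i b a
    rw [← hb.2]
    exact hh3 b hb.1

end Pool.Agent.H86.HDA.SH2
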