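import Pool.Agent.H7.HD.All
import Pool.Agent.H7.HD.Targets11
import Pool.Agent.H65.HD.SC

/-!
# MP_e37c09_lc, module TP: `Tg` is positive
-/

set_option autoImplicit false

open Ordinal Cardinal Order Set
open scoped ZFSet

universe u

namespace Pool.Agent.H86.HDA.TP

open HD

/-- `Tg` is positive -/
theorem tp (hGDD : T_GDD.{u}) : T_TP.{u} := by
  intro K lam Q f t X hK hK0 ht hQ h C₁ hC₁
  have hcof : ℵ₀ < K.ord.cof := by rw [hK.cof_ord]; exact hK0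
  obtain ⟨C, hC, hG⟩ := hGDD K lam Q f t hK hK0 ht hQ
  obtain ⟨ξ, hξK, hξC, hξX, hreg, hne⟩ := h (C ∩ Pool.Agent.H65.HD.lp C₁)
    (Pool.Agent.H65.HD.clb_inter hcof hC (Pool.Agent.H65.HD.clb_lp hcof hC₁))
  have hξc : ℵ₀ < ξ.cof := hne.1
  have hCξ : Clb ξ C₁ := Pool.Agent.H65.HD.clb_down hC₁ hξK hξC.2
  have hnull := hG ξ hξC.1 hξK hne hreg
  obtain ⟨γ, hγ, hγC, hγm, hγcf⟩ := pos_diff All.va hξc
    (All.vc ℵ₀ ξ Cardinal.isRegular_aleph0 hξc) hnull C₁ hCξ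
  refine ⟨γ, hγ.trans hξK, hγC, ⟨ξ, hγ, hξK, hξX, ?_⟩, hγcf⟩
  by_contra hcon
  exact hγm.2 hcon

end Pool.Agent.H86.HDA.TP
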